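import Pool.Agent.Helper28.ND.Spec4

/-!
# MP_0c2f33_an, part C4 (LOW): growth of the far mass.
-/

namespace Pool.Agent.Helper59.ND.LOW
open MeasureTheory Set Filter Topology Pool.Agent.Helper28.ND
open scoped ENNReal NNReal

noncomputable section

/-- `sd` on the quarter cell. -/
theorem sd_eq {y : ℝ} (h0 : 0 < y) (h1 : y < 1 / 4) : sd y = y := by
  have h2 : round (2 * y) = 0 := by
    rw [round_eq_zero_iff]
    constructor <;> [linarith; linarith]
  simp [sd, h2]

theorem meas_Q4 : MeasurableSet Q4 := by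
  have h : Q4 = ({x : Fin 2 → ℝ | 0 < x 0} ∩ {x | x 0 < 1 / 4} ∩ {x | 0 < x 1} ∩ {x | x 1 ≤ 1}) := by
    ext x; simp [Q4, and_assoc]
  rw [h]
  refine ((MeasurableSet.inter ?_ ?_).inter ?_).inter ?_
  · exact measurableSet_lt measurable_const (measurable_pi_apply 0)
  · exact measurableSet_lt (measurable_pi_apply 0) measurable_const
  · exact measurableSet_lt measurable_const (measurable_pi_apply 1)
  · exact measurableSet_le (measurable_pi_apply 1) measurable_const

theorem vol_Q4 : volume Q4 < ⊤ := by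
  have h : Q4 ⊆ Set.Icc (fun _ => (0 : ℝ)) (fun _ => (1 : ℝ)) := by
    intro x hx
    obtain ⟨h0, h1, h2, h3⟩ := hx
    constructor
    · intro i; fin_cases i
      · exact h0.le
      · exact h2.le
    · intro i; fin_cases i
      · show x 0 ≤ 1
        linarith
      · exact h3
  exact lt_of_le_of_lt (measure_mono h) (isCompact_Icc.measure_lt_top)

theorem int_of_bdd {w : (Fin 2 → ℝ) → ℝ} (hm : Measurable w) {B : ℝ} (hB : ∀ x, |w x| ≤ B) (a : ℝ) :
    IntegrableOn (fun x : Fin 2 → ℝ => if a ≤ x 0 then w x else 0) Q4 := by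
  have : IsFiniteMeasure (volume.restrict Q4) := ⟨by
    rw [Measure.restrict_apply_univ]; exact vol_Q4⟩
  have hm2 : Measurable (fun x : Fin 2 → ℝ => if a ≤ x 0 then w x else 0) :=
    Measurable.ite (measurableSet_le measurable_const (measurable_pi_apply 0)) hm measurable_const
  refine Integrable.of_bound (C := |B|) hm2.aestronglyMeasurable ?_
  refine Eventually.of_forall fun x => ?_
  rw [Real.norm_eq_abs]
  split_ifs
  · exact (hB x).trans (le_abs_self B)
  · simp

theorem BMP.meas_t {w : ℝ → (Fin 2 → ℝ) → ℝ} (h : BMP w) (t : ℝ) : Measurable (w t) :=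
  h.meas.comp (measurable_const.prodMk measurable_id)

theorem main (hCRE : S_CRE) (hRE2 : S_RE2) (hREC : S_REC) (hPERX : S_PERX) (hBLK : S_BLK)
    (hBETA : S_BETA) (hNUM : S_NUM) (hFREG : S_FREG) : S_LOW := by
  intro T n0 N M hP n k u v w wv hu hw
  obtain ⟨hr0, hrN, hr160, hL0, hLT, hL', hK0, hKr, hV0, hLK, hR16, hR20, hR8⟩ := hNUM T n0 N M hP k
  obtain ⟨hr0', hrN', hr160', hL0', hLT', hL'', hK0', hKr', hV0', hLK', hR16', hR20', hR8'⟩ :=
    hNUM T n0 N M hP (k + 1)
  obtain ⟨uj, vj, hS, hsum, hzero, hshift⟩ := hREC T n0 N M hP n k u v w wv hu hw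
  obtain ⟨hSw, hwper⟩ := hPERX T n0 N M hP n (k + 1) w wv hw
  have hT : 0 < T := hP.hT
  have hM1 : 1 ≤ M := hP.hM
  have hM1' : (1 : ℝ) ≤ (M : ℝ) := by exact_mod_cast hM1
  set L := LL n0 N (k + 1) with hLdef
  set r := rr n0 N k with hrdef
  set R := RR (LL n0 N k - KC n0 N M k) with hRdef
  have hRpos : 0 < R := lt_of_lt_of_le (by positivity) hR16
  have hKdef : KC n0 N M k = 2 * M * L := rfl
  have hKL : KC n0 N M k < LL n0 N k := by nlinarith [sq_nonneg r, hr0]
  have hNpos : 0 < (N : ℝ) := by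
    have := hP.hN2
    have : (4 * 10 ^ 7 : ℝ) ≤ (N : ℝ) := by exact_mod_cast this
    linarith
  have hnn : 160 ≤ n0 * N ^ k := by
    have h1 : 1 ≤ N ^ k := Nat.one_le_pow _ _ (by have := hP.hN2; omega)
    calc 160 ≤ n0 := hP.hn
      _ = n0 * 1 := (mul_one _).symm
      _ ≤ n0 * N ^ k := Nat.mul_le_mul_left _ h1
  have hrn : r = 1 / ((n0 * N ^ k : ℕ) : ℝ) := rfl
  have hVdef : VV n0 N M k = (r / (64 * M)) / L := rfl
  obtain ⟨Cb, hCb1, hBET⟩ := hBETA N (by have := hP.hN2; omega)
  obtain ⟨_, _, _, hb1, _, _, hbC, _, _⟩ := hBET (n0 * N ^ k) (by omega)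
  rw [← hrn] at hb1 hbC
  obtain ⟨_, _, _, _, _, hbz, _, hsub, hpul⟩ := hBLK T n0 N M hP (n + 1) k
  obtain ⟨_, _, _, _, _, _, hbfar, _, _⟩ := hBLK T n0 N M hP n (k + 1)
  obtain ⟨_, _, _, _, _, _, _, hsub, hpul⟩ := hBLK T n0 N M hP n k
  -- lower bound for every `j` with `2 j ≤ M`
  have key : ∀ j : Fin M, 2 * (j : ℕ) ≤ M →
      1 / 10 ^ 7 * far n0 N M (k + 1) (w L) ≤ far n0 N M k (uj j (LL n0 N k)) := by
    intro j hj
    have hjM : (j : ℕ) < M := j.2
    have hm : ((M - (j : ℕ) : ℕ) : ℝ) = (M : ℝ) - (j : ℕ) := by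
      rw [Nat.cast_sub hjM.le]
    have hend : (2 * (j : ℕ) + 1) * L + (2 * ((M - (j : ℕ) : ℕ) : ℝ) - 1) * L = KC n0 N M k := by
      rw [hm, hKdef]; ring
    have hjn : (0 : ℝ) ≤ ((j : ℕ) : ℝ) := Nat.cast_nonneg _
    have hut0 : ∀ x, uj j ((2 * (j : ℕ) + 1) * L) x = w L x := by
      intro x
      have := hshift j L x le_rfl
      rw [← this]; congr 1; ring
    have hcre := hCRE T (bt n0 N M (n + 1) k)
      (fun t x => if 2 * (j : ℕ) * L < t ∧ t < (2 * (j : ℕ) + 1) * L
        then ft n0 N M (n + 1) k t x else 0) (uj j) (vj j) (hS j)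
      (n0 * N ^ k) N M (M - (j : ℕ)) ((2 * (j : ℕ) + 1) * L) r L (VV n0 N M k) R hnn hrn hP.hN hM1
      hP.hNM hL' hVdef (by omega) (by omega) (by omega) (by positivity)
      (by rw [hend]; linarith) hRpos hR20
      (by
        intro t x h1 _
        rw [if_neg]
        rintro ⟨_, h2⟩
        linarith)
      (by
        intro i hi t x h1 h2 hx hxr
        have hij : (j : ℕ) + i < M := by omega
        have h3 := hpul ((j : ℕ) + i) hij t (by push_cast; linarith) (by push_cast; linarith) x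
        obtain ⟨_, h4⟩ := h3
        constructor
        · rw [h4 0, abs_mul, abs_of_pos hV0]
          calc VV n0 N M k * |bet r N x 0| ≤ VV n0 N M k * 1 :=
                mul_le_mul_of_nonneg_left (hb1 x).1 hV0.le
            _ = VV n0 N M k := mul_one _
        · intro hx2
          obtain ⟨h5, h6⟩ := hbC x hx hxr hx2
          rw [h4 0, h4 1, h5, h6, mul_zero]
          exact ⟨rfl, rfl⟩)
      (by
        intro i hi t x h1 h2 hx hxr j'
        have hij : (j : ℕ) + i + 1 < M := by omega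
        have h3 := hsub ((j : ℕ) + i + 1) hij (t - 2 * (((j : ℕ) + i + 1 : ℕ) : ℝ) * L)
          (by push_cast; linarith) (by push_cast; linarith) x
        obtain ⟨_, h4⟩ := h3
        have h5 := h4 j'
        rw [show t - 2 * (((j : ℕ) + i + 1 : ℕ) : ℝ) * L + 2 * (((j : ℕ) + i + 1 : ℕ) : ℝ) * L = t
          by ring] at h5
        rw [h5]
        apply hbfar
        rw [sd_eq hx.1 hx.2.1, abs_of_pos hx.1, hrN]
        exact hxr)
      (by
        intro x
        rw [hut0, hut0, ← hrN]
        exact hwper L x)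
    rw [hend] at hcre
    have hKC0 : 0 ≤ KC n0 N M k := hK0.le
    have hre2 := hRE2 T (bt n0 N M (n + 1) k)
      (fun t x => if 2 * (j : ℕ) * L < t ∧ t < (2 * (j : ℕ) + 1) * L
        then ft n0 N M (n + 1) k t x else 0) (uj j) (vj j) (hS j) (KC n0 N M k) (LL n0 N k)
      hKC0 hKL (by linarith) hR8
      (by
        intro t x h1 h2
        constructor
        · show (if _ then _ else _) = (0 : ℝ)
          rw [if_neg]
          rintro ⟨_, h3⟩
          have h4 : ((j : ℕ) : ℝ) + 1 ≤ (M : ℝ) := by exact_mod_cast hjM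
          rw [hKdef] at h1
          nlinarith
        · intro i
          exact (hbz t (Or.inr h1.le) x).2 i)
    have hfar1 : far n0 N M (k + 1) (w L)
        ≤ ∫ x in Q4, (if 24 / 10 * (r / N) ≤ x 0 then uj j ((2 * (j : ℕ) + 1) * L) x else 0) := by
      obtain ⟨hBw, _⟩ := hFREG 2 T _ _ w wv hT hw
      obtain ⟨B, hB⟩ := hBw.bdd
      unfold far
      refine setIntegral_mono_on (int_of_bdd (BMP.meas_t hBw L) (hB L) _) ?_ meas_Q4 ?_
      · have := int_of_bdd (BMP.meas_t hBw L) (hB L) (24 / 10 * (r / N))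
        simpa [hut0] using this
      · intro x hx
        rw [hut0]
        have hw0 : 0 ≤ w L x := hSw.up L x (by linarith) hx.1.le hx.2.1.le
        split_ifs with h1 h2 h2
        · exact le_rfl
        · exfalso
          apply h2
          rw [← hrN]
          linarith
        · exact hw0
        · exact le_rfl
    have hfar2 : far n0 N M k (uj j (LL n0 N k))
        = ∫ x in Q4, (if 15 / 100 * RR (LL n0 N k - KC n0 N M k) ≤ x 0
            then uj j (LL n0 N k) x else 0) := rfl
    rw [hfar2]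
    calc 1 / 10 ^ 7 * far n0 N M (k + 1) (w L)
        ≤ 1 / 10 ^ 7 * ∫ x in Q4, (if 24 / 10 * (r / N) ≤ x 0
            then uj j ((2 * (j : ℕ) + 1) * L) x else 0) :=
          mul_le_mul_of_nonneg_left hfar1 (by norm_num)
      _ = (1 / 10) * ((1 / 10 ^ 6) * ∫ x in Q4, (if 24 / 10 * (r / N) ≤ x 0
            then uj j ((2 * (j : ℕ) + 1) * L) x else 0)) := by ring
      _ ≤ (1 / 10) * ∫ x in Q4, uj j (KC n0 N M k) x * Gp (x 0 / R) :=
          mul_le_mul_of_nonneg_left hcre (by norm_num)
      _ ≤ _ := hre2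
  -- nonnegativity
  have hnonneg : ∀ j : Fin M, 0 ≤ far n0 N M k (uj j (LL n0 N k)) := by
    intro j
    unfold far
    refine setIntegral_nonneg meas_Q4 fun x hx => ?_
    split_ifs
    · exact (hS j).up _ x (by linarith) hx.1.le hx.2.1.le
    · exact le_rfl
  have hfw : 0 ≤ far n0 N M (k + 1) (w L) := by
    unfold far
    refine setIntegral_nonneg meas_Q4 fun x hx => ?_
    split_ifs
    · exact hSw.up _ x (by linarith) hx.1.le hx.2.1.le
    · exact le_rfl
  -- additivity
  have hadd : far n0 N M k (u (LL n0 N k)) = ∑ j, far n0 N M k (uj j (LL n0 N k)) := by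
    unfold far
    rw [← integral_finsetSum]
    · refine integral_congr_ae (Eventually.of_forall fun x => ?_)
      by_cases hx : 15 / 100 * RR (LL n0 N k - KC n0 N M k) ≤ x 0
      · simp only [if_pos hx]
        exact hsum _ _
      · simp only [if_neg hx, Finset.sum_const_zero]
    · intro j _
      obtain ⟨hBj, _⟩ := hFREG 2 T _ _ (uj j) (vj j) hT (hS j).sol
      obtain ⟨B, hB⟩ := hBj.bdd
      exact int_of_bdd (BMP.meas_t hBj _) (hB _) _
  rw [hadd]
  -- counting
  have hcount : (M : ℝ) / 2 ≤ ((Finset.univ.filter (fun j : Fin M => 2 * (j : ℕ) ≤ M)).card : ℝ) := by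
    have h1 : (M / 2 + 1) ≤ (Finset.univ.filter (fun j : Fin M => 2 * (j : ℕ) ≤ M)).card + 
        (if M / 2 + 1 ≤ M then 0 else 1) := by
      split_ifs with h
      · rw [add_zero]
        calc M / 2 + 1 = (Finset.univ : Finset (Fin (M / 2 + 1))).card := by simp
          _ ≤ _ := by
            refine Finset.card_le_card_of_injOn (fun i => (⟨i.1, by omega⟩ : Fin M)) ?_ ?_
            · intro i _
              simp only [Finset.coe_filter, Finset.mem_univ, true_and, Set.mem_ofPred_eq]
              omega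
            · intro a _ b _ hab
              simpa [Fin.ext_iff] using hab
      · have hM : M = 1 ∨ M = 0 := by omega
        rcases hM with rfl | rfl
        · simp
        · omega
    have h2 : M ≤ 2 * (Finset.univ.filter (fun j : Fin M => 2 * (j : ℕ) ≤ M)).card := by
      split_ifs at h1 with h
      · omega
      · have hM : M = 1 := by omega
        subst hM
        have : (Finset.univ.filter (fun j : Fin 1 => 2 * (j : ℕ) ≤ 1)).card = 1 := by
          decide
        omega
    have h3 : (M : ℝ) ≤ 2 * ((Finset.univ.filter (fun j : Fin M => 2 * (j : ℕ) ≤ M)).card : ℝ) := by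
      exact_mod_cast h2
    linarith
  calc ((M : ℝ) / 2) / 10 ^ 7 * far n0 N M (k + 1) (w (LL n0 N (k + 1)))
      = ((M : ℝ) / 2) * (1 / 10 ^ 7 * far n0 N M (k + 1) (w L)) := by rw [hLdef]; ring
    _ ≤ ((Finset.univ.filter (fun j : Fin M => 2 * (j : ℕ) ≤ M)).card : ℝ)
          * (1 / 10 ^ 7 * far n0 N M (k + 1) (w L)) :=
        mul_le_mul_of_nonneg_right hcount (by positivity)
    _ = ∑ j ∈ Finset.univ.filter (fun j : Fin M => 2 * (j : ℕ) ≤ M),
          (1 / 10 ^ 7 * far n0 N M (k + 1) (w L)) := by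
        rw [Finset.sum_const, nsmul_eq_mul]
    _ ≤ ∑ j ∈ Finset.univ.filter (fun j : Fin M => 2 * (j : ℕ) ≤ M),
          far n0 N M k (uj j (LL n0 N k)) := by
        refine Finset.sum_le_sum fun j hj => key j ?_
        simpa using hj
    _ ≤ ∑ j, far n0 N M k (uj j (LL n0 N k)) :=
        Finset.sum_le_sum_of_subset_of_nonneg (Finset.filter_subset _ _)
          (fun j _ _ => hnonneg j)

end

end Pool.Agent.Helper59.ND.LOW
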